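import Pool.Agent.E8helper59.TS.Stm2
import Pool.Agent.E8helper74.TS.Cap

/-!
# Project TS, TS14: from parallelotopes around the affine image to parallelograms around the base
-/

set_option autoImplicit false
open MeasureTheory Set Filter Topology
open scoped Pointwise ENNReal
open Pool.Agent.E8helper59.TS

namespace Pool.Agent.E8helper32.TS

theorem t_CAP2 (h : S_CAP) : S_CAP2 := by
  intro m D v L P₀ hDc hDv hDi hP hmin
  have := Pool.Agent.E8helper74.TS.haarE m
  set d : ℝ := |LinearMap.det ((L : E m →L[ℝ] E m) : E m →ₗ[ℝ] E m)| with hd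
  have hdpos : 0 < d := abs_pos.mpr (LinearEquiv.isUnit_det' (L.toLinearEquiv)).ne_zero
  have hd0 : ENNReal.ofReal d ≠ 0 := by simpa using hdpos
  have hdt : ENNReal.ofReal d ≠ ⊤ := ENNReal.ofReal_ne_top
  obtain ⟨v₀, L₀, hP₀⟩ := hP
  -- the parallelotope in the coordinates of the cylinder
  set P₁ : Set (E m) := (fun x => L.symm (v₀ - v) + (L₀.trans L.symm) x) '' Icc 0 1 with hP₁
  have hback : (fun x => v + L x) '' P₁ = P₀ := by
    rw [hP₁, hP₀, image_image]
    apply image_congr
    intro x _
    simp only [map_add, ContinuousLinearEquiv.trans_apply, ContinuousLinearEquiv.apply_symm_apply]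
    abel
  have hvol : volume P₀ = ENNReal.ofReal d * volume P₁ := by
    rw [← hback, Pool.Agent.E8helper74.TS.vol_image volume v L P₁]
  have hmin₁ : ∀ P : Set (E m), Ptope m P → Cyl m D ⊆ P → volume P₁ ≤ volume P := by
    intro P hPt hsub
    obtain ⟨w, M, hPw⟩ := hPt
    have h1 : Ptope m ((fun x => v + L x) '' P) := by
      refine ⟨v + L w, M.trans L, ?_⟩
      rw [hPw, image_image]
      apply image_congr
      intro x _
      simp [add_assoc]
    have h2 : ACyl m D v L ⊆ (fun x => v + L x) '' P := image_mono hsub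
    have h3 := hmin _ h1 h2
    rw [hvol, Pool.Agent.E8helper74.TS.vol_image volume v L P, ← hd] at h3
    exact (ENNReal.mul_le_mul_iff_right hd0 hdt).mp h3
  obtain ⟨h1, h2, h3⟩ := h m D P₁ hDc hDv hDi ⟨_, _, hP₁⟩ hmin₁
  have hreal : (volume P₀).toReal = d * (volume P₁).toReal := by
    rw [hvol, ENNReal.toReal_mul, ENNReal.toReal_ofReal hdpos.le]
  refine ⟨?_, ?_, ?_⟩
  · rw [hreal]; positivity
  · rw [hvol]; exact ENNReal.mul_ne_top hdt h2
  · have : (volume P₀).toReal / d = (volume P₁).toReal := by
      rw [hreal]; field_simp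
    rw [this]; exact h3

end Pool.Agent.E8helper32.TS
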